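import Pool.Agent.MWLQ.StmtsA

/-!
# MWLQ, row DDC (MP_23468a_al): powers of letters
-/

set_option autoImplicit false

namespace Pool.Agent.MWLQ.H27

open Pool.Agent.Helper14_MV
open Pool.Agent.Helper2_MV
open Pool.Agent.MWK (pre)
open Pool.Agent.MWGN (nn Tau gh)
open Pool.Agent.MWGQ (pw Z Gn E0 A0 P0)

theorem pw_one (a x : ℕ) : pw a [x] = List.replicate a x := by
  unfold pw
  induction a with
  | zero => rfl
  | succ a ih =>
    rw [List.replicate_succ, List.flatten_cons, ih, List.replicate_succ, List.singleton_append]

theorem pw_succ (m : ℕ) (W : List ℕ) : pw (m + 1) W = W ++ pw m W := by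
  unfold pw
  rw [List.replicate_succ, List.flatten_cons]

theorem pw_zero (W : List ℕ) : pw 0 W = [] := rfl

theorem dn_cons (n c : ℕ) (u : List ℕ) : dn n (c :: u) = List.replicate (n + 1) c ++ dn n u := rfl

theorem ctx {β : FIC} (P Q : List ℕ) {x y : List ℕ} (h : RR β x y) :
    RR β (P ++ (x ++ Q)) (P ++ (y ++ Q)) :=
  (RR.refl P).append (h.append (RR.refl Q))

theorem ddc1 (h : MWGQ.PwxStmt) {n : ℕ} {β : FIC} (hG : Gn n β) (u X B : List ℕ) (a : ℕ)
    (ha : 2 ≤ a) : ∀ A : List ℕ,
    RR β (A ++ (dn n u ++ (pw a X ++ B))) (A ++ (pw a X ++ (dn n u ++ B))) := by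
  have hn := hG.pos
  induction u with
  | nil =>
    intro A
    exact RR.refl _
  | cons c u ih =>
    intro A
    rw [dn_cons]
    have h1 := ih (A ++ List.replicate (n + 1) c)
    have h2 := (h n β hG).2.2 [c] X (n + 1) a (by omega) ha
    rw [pw_one] at h2
    have h4 := ctx A (dn n u ++ B) h2
    simp only [List.append_assoc] at h1 h4 ⊢
    exact β.trans h1 h4

/-- `(c^(n+1) D)^m ~ c^(m(n+1)) D^m` -/
theorem ddc2 (h : MWGQ.PwxStmt) {n : ℕ} {β : FIC} (hG : Gn n β) (c : ℕ) (u : List ℕ) :
    ∀ (m : ℕ) (A B : List ℕ),
      RR β (A ++ (pw m (List.replicate (n + 1) c ++ dn n u) ++ B))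
        (A ++ (List.replicate (m * (n + 1)) c ++ (pw m (dn n u) ++ B))) := by
  have hn := hG.pos
  intro m
  induction m with
  | zero =>
    intro A B
    rw [pw_zero, pw_zero, Nat.zero_mul]
    exact RR.refl _
  | succ m ih =>
    intro A B
    rw [pw_succ, pw_succ]
    have h1 := ih (A ++ (List.replicate (n + 1) c ++ dn n u)) B
    have e1 : List.replicate ((m + 1) * (n + 1)) c =
        List.replicate (n + 1) c ++ List.replicate (m * (n + 1)) c := by
      rw [← List.replicate_add]
      congr 1
      ring
    rw [e1]
    rcases Nat.eq_zero_or_pos m with hm | hm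
    · subst hm
      rw [pw_zero, pw_zero, Nat.zero_mul]
      simp only [List.append_assoc, List.replicate_zero, List.nil_append]
      exact RR.refl _
    · have ha : 2 ≤ m * (n + 1) := by nlinarith
      have h2 := ddc1 h hG u [c] (pw m (dn n u) ++ B) (m * (n + 1)) ha
        (A ++ List.replicate (n + 1) c)
      rw [pw_one] at h2
      simp only [List.append_assoc] at h1 h2 ⊢
      exact β.trans h1 h2

theorem ddc (h : MWGQ.PwxStmt) : DdcStmt := by
  intro n β hG u X A B
  have hn := hG.pos
  refine ⟨fun a ha => ddc1 h hG u X B a ha A, ?_, ?_, ?_⟩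
  · induction u generalizing A with
    | nil =>
      have e : pw (n + 1) (dn n []) = [] := by
        have : ∀ m : ℕ, pw m (dn n []) = [] := by
          intro m
          induction m with
          | zero => rfl
          | succ m ih =>
            rw [pw_succ, ih]
            rfl
        exact this _
      rw [e]
      exact RR.refl _
    | cons c u ih =>
      rw [dn_cons]
      have h1 := (h n β hG).1 [c] (n + 1) ((n + 1) * (n + 1)) (by omega) (by nlinarith)
        (by
          have e : (n + 1) * (n + 1) = (n + 1) + n * (n + 1) := by ring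
          rw [e]
          unfold Nat.ModEq
          rw [Nat.add_mul_mod_self_left])
      rw [pw_one, pw_one] at h1
      have h2 := ctx A (dn n u ++ B) h1
      have h3 := ih (A ++ List.replicate ((n + 1) * (n + 1)) c)
      have h4 := (ddc2 h hG c u (n + 1) A B).symm
      simp only [List.append_assoc] at h2 h3 h4 ⊢
      exact β.trans (β.trans h2 h3) h4
  · induction u generalizing A with
    | nil =>
      intro _
      exact RR.refl _
    | cons c u ih =>
      intro hc
      rw [dn_cons]
      obtain ⟨A1, A2, hA⟩ := List.append_of_mem (hc c (by simp))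
      have h1 := (h n β hG).2.1 [c] A2 1 (n + 1) (le_refl 1) (by omega)
        (by
          unfold Nat.ModEq
          rw [Nat.add_comm n 1, Nat.add_mod_right])
      rw [pw_one, pw_one] at h1
      have h2 := ctx A1 (u ++ B) h1
      have e1 : A1 ++ (([c] ++ (A2 ++ List.replicate 1 c)) ++ (u ++ B)) = A ++ (c :: u ++ B) := by
        rw [hA]
        simp
      have e2 : A1 ++ (([c] ++ (A2 ++ List.replicate (n + 1) c)) ++ (u ++ B)) =
          (A ++ List.replicate (n + 1) c) ++ (u ++ B) := by
        rw [hA]
        simp
      rw [e1, e2] at h2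
      have h3 := ih (A ++ List.replicate (n + 1) c) (by
        intro x hx
        exact List.mem_append_left _ (hc x (List.mem_cons_of_mem _ hx)))
      simp only [List.append_assoc] at h2 h3 ⊢
      exact β.trans h2 h3
  · intro u' hu
    induction hu generalizing A with
    | nil => exact RR.refl _
    | cons x _ ih =>
      rw [dn_cons, dn_cons]
      have h1 := ih (A ++ List.replicate (n + 1) x)
      simp only [List.append_assoc] at h1 ⊢
      exact h1
    | swap x y l =>
      rw [dn_cons, dn_cons, dn_cons, dn_cons]
      have h1 := (h n β hG).2.2 [y] [x] (n + 1) (n + 1) (by omega) (by omega)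
      rw [pw_one, pw_one] at h1
      have h2 := ctx A (dn n l ++ B) h1
      simp only [List.append_assoc] at h2 ⊢
      exact h2
    | trans _ _ ih1 ih2 => exact β.trans (ih1 A) (ih2 A)

end Pool.Agent.MWLQ.H27
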